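import Mathlib

set_option autoImplicit false

/-!
# Fixed-point formulas for labelled self-converse digraphs: definitions

`Arc V` is the set of ordered pairs of different points. `G V = Perm V × ℤˣ` acts on `Arc V`: `(π, 1)` maps
`(u, v)` to `(π u, π v)`, `(π, -1)` maps `(u, v)` to `(π v, π u)`. A `κ`-coloured digraph is a function
`D : Arc V → κ` (`κ = Bool`: a digraph). `stab D` is the group of the `g` with `D (g • e) = D e`.
-/

namespace Pool.Agent.MP_b5e4d4_co.FP

open Equiv

/-- ordered pairs of different points -/
abbrev Arc (V : Type) : Type := {e : V × V // e.1 ≠ e.2}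

/-- relabellings `(π, 1)`, and relabellings followed by the reversal of all arcs `(π, -1)` -/
abbrev G (V : Type) : Type := Perm V × ℤˣ

/-- the reversed arc -/
def rev {V : Type} (e : Arc V) : Arc V := ⟨(e.1.2, e.1.1), fun h => e.2 h.symm⟩

/-- the image of an arc under a permutation of the points -/
def mv {V : Type} (π : Perm V) (e : Arc V) : Arc V :=
  ⟨(π e.1.1, π e.1.2), fun h => e.2 (π.injective h)⟩

/-- the action of `G V` on the arcs -/
def act {V : Type} (g : G V) (e : Arc V) : Arc V :=
  if g.2 = 1 then mv g.1 e else rev (mv g.1 e)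

theorem rev_rev {V : Type} (e : Arc V) : rev (rev e) = e := rfl

theorem mv_rev {V : Type} (π : Perm V) (e : Arc V) : mv π (rev e) = rev (mv π e) := rfl

theorem mv_mul {V : Type} (π σ : Perm V) (e : Arc V) : mv (π * σ) e = mv π (mv σ e) := rfl

theorem act_one' {V : Type} (π : Perm V) (e : Arc V) : act (π, 1) e = mv π e := by
  simp [act]

theorem act_neg {V : Type} (π : Perm V) (e : Arc V) : act (π, -1) e = rev (mv π e) := by
  have h : ((-1 : ℤˣ)) ≠ 1 := by decide
  simp [act, h]

instance instAct {V : Type} : MulAction (G V) (Arc V) where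
  smul := act
  one_smul e := by
    show act (1, 1) e = e
    rw [act_one']
    rfl
  mul_smul g h e := by
    show act (g * h) e = act g (act h e)
    obtain ⟨π, a⟩ := g
    obtain ⟨σ, b⟩ := h
    rcases Int.units_eq_one_or a with rfl | rfl <;> rcases Int.units_eq_one_or b with rfl | rfl <;>
      simp only [Prod.mk_mul_mk, one_mul, mul_one, neg_mul_neg, act_one', act_neg, mv_mul, mv_rev,
        rev_rev]

theorem smul_def {V : Type} (g : G V) (e : Arc V) : g • e = act g e := rfl

theorem smul_one {V : Type} (π : Perm V) (e : Arc V) : ((π, 1) : G V) • e = mv π e := act_one' π e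

theorem smul_neg {V : Type} (π : Perm V) (e : Arc V) : ((π, -1) : G V) • e = rev (mv π e) :=
  act_neg π e

/-- the stabiliser of a coloured digraph -/
def stab {V κ : Type} (D : Arc V → κ) : Subgroup (G V) where
  carrier := {g | ∀ e, D (g • e) = D e}
  one_mem' := fun e => by rw [one_smul]
  mul_mem' := fun {g h} hg hh e => by rw [mul_smul, hg, hh]
  inv_mem' := fun {g} hg e => by rw [← hg (g⁻¹ • e), smul_inv_smul]

/-- `D` is self-converse: a permutation of the points maps `D` to its converse -/
def SC {V κ : Type} (D : Arc V → κ) : Prop := ∃ π : Perm V, ∀ e, D (rev (mv π e)) = D e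

/-- the relabelled digraph -/
def relabel {V κ : Type} (π : Perm V) (D : Arc V → κ) : Arc V → κ := fun e => D (mv π⁻¹ e)

/-- the sign-one part `Sym(V) × 1` of `G V` -/
def S (V : Type) : Subgroup (G V) where
  carrier := {g | g.2 = 1}
  one_mem' := rfl
  mul_mem' := fun {g h} hg hh => by
    show (g * h).2 = 1
    rw [Prod.snd_mul, show g.2 = 1 from hg, show h.2 = 1 from hh, one_mul]
  inv_mem' := fun {g} hg => by
    show (g⁻¹).2 = 1
    rw [Prod.snd_inv, show g.2 = 1 from hg, inv_one]

/-- the closure of a subgroup: all elements which preserve every orbit on the arcs -/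
def cl {V : Type} (H : Subgroup (G V)) : Subgroup (G V) where
  carrier := {g | ∀ e : Arc V, g • e ∈ MulAction.orbit H e}
  one_mem' := fun e => by rw [one_smul]; exact MulAction.mem_orbit_self e
  mul_mem' := fun {g h} hg hh e => by
    rw [mul_smul]
    have h1 := hg (h • e)
    rw [MulAction.orbit_eq_iff.2 (hh e)] at h1
    exact h1
  inv_mem' := fun {g} hg e => by
    have h1 := hg (g⁻¹ • e)
    rw [smul_inv_smul] at h1
    exact MulAction.mem_orbit_symm.1 h1

/-- a closed subgroup is the full group of its orbits on the arcs -/
def Closed {V : Type} (H : Subgroup (G V)) : Prop := cl H = H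

/-- the number of orbits of a subgroup on the arcs -/
noncomputable def orb {V : Type} (H : Subgroup (G V)) : ℕ :=
  Nat.card (MulAction.orbitRel.Quotient H (Arc V))

/-- a fixed-point formula with `n` terms (`X`, `w`) for the labelled self-converse digraphs on `V`: for every
isomorphism-invariant function `f`, the sum of `f` over the self-converse digraphs is the sum of the `w i` times the
sum of `f` over the digraphs fixed by all elements of `X i` -/
def Formula {V : Type} [Fintype V] [DecidableEq V] (n : ℕ) (X : Fin n → Set (G V)) (w : Fin n → ℂ) :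
    Prop :=
  open scoped Classical in
  ∀ f : (Arc V → Bool) → ℂ, (∀ (π : Perm V) D, f (relabel π D) = f D) →
    ∑ D with SC D, f D = ∑ i, w i * ∑ D with X i ⊆ stab D, f D

end Pool.Agent.MP_b5e4d4_co.FP
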