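import Pool.Agent.Lib.MP_b5e4d4_co.FP.W1
import Pool.Agent.Lib.MP_b5e4d4_co.Mg.G008
import Pool.Agent.Lib.MP_b5e4d4_co.Mg.G009

set_option autoImplicit false

namespace Pool.Agent.MP_b5e4d4_co.FP

open Equiv

theorem lower (p : ℕ) (hp : 8192 ≤ p) (n : ℕ) (X : Fin n → Set (G (Fin p))) (w : Fin n → ℂ)
    (hF : Formula n X w) : p.factorial ≤ n ^ 128 := by
  obtain ⟨m, l, q, c, hV, hc, hq, H⟩ := N3 p hp
  have hcard : Fintype.card (Vt q m l) = p := by
    rw [Fintype.card_sum, card_S0, Fintype.card_fin, hV]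
  have e : Fin p ≃ Vt q m l := (Fintype.equivFinOfCardEq hcard).symm
  obtain ⟨X', hF'⟩ := T1 e X w hF
  have h1 := N2 (by rw [card_S0]; exact hc) hq X' w hF'
  rw [Nat.card_eq_fintype_card, hcard] at h1
  exact H n h1

end Pool.Agent.MP_b5e4d4_co.FP
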