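import Mathlib

set_option autoImplicit false

/-!
# Number of orbits of a subgroup
-/

namespace Pool.Agent.MP_b5e4d4_co.FP

/-- the number of orbits of the subgroup `K` on `Ω` -/
noncomputable def no (Ω : Type) {Γ : Type} [Group Γ] [MulAction Γ Ω] (K : Subgroup Γ) : ℕ :=
  Nat.card (MulAction.orbitRel.Quotient K Ω)

/-- the `K`-orbit `q` is kept by `h`: `h` maps it into itself -/
def Kept {Γ Ω : Type} [Group Γ] [MulAction Γ Ω] (K : Subgroup Γ) (h : Γ)
    (q : MulAction.orbitRel.Quotient K Ω) : Prop :=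
  ∀ x ∈ q.orbit, h • x ∈ q.orbit

end Pool.Agent.MP_b5e4d4_co.FP
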