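import Pool.Agent.Lib.MP_b5e4d4_co.Mg.G010

set_option autoImplicit false

/-!
# Task W1: the weights and the counting formula

`W1_exists`: on a finite partial order every function `F` is `F a = ∑_{b ≤ a} W b` for exactly one integer function `W`
(well-founded recursion `W a = F a - ∑_{b < a} W b`, e.g. with `WellFounded.fix` or by induction on the number of elements
below; uniqueness by strong induction).
`W1_formula`: for every `D`, `∑_{L closed, L ≤ stab D} W L = [¬ stab D ≤ S] = [SC D]` (`closed_stab`; `SC D` iff some
`(π, -1) ∈ stab D`, see `smul_neg`). Multiply by `f D`, sum over `D`, exchange the sums (`Finset.sum_comm`).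
`W1_count`: `f = 1`; the number of the functions `D : Arc V → κ` with `L ≤ stab D` is `(card κ) ^ (orb L)`: such `D` are
the functions on the quotient `MulAction.orbitRel.Quotient L (Arc V)`.
-/

namespace Pool.Agent.MP_b5e4d4_co.FP

open Equiv

/-- the weight function: `∑_{L closed, L ≤ K} W L` is `1` if `K` contains an element of sign `-1` and `0` otherwise -/
def IsWeight {V : Type} [Fintype V] (W : Subgroup (G V) → ℤ) : Prop :=
  open scoped Classical in
  ∀ K : Subgroup (G V), Closed K →
    ∑ L : Subgroup (G V) with Closed L ∧ L ≤ K, W L = if K ≤ S V then 0 else 1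

private theorem W1_split {α : Type} [Fintype α] [PartialOrder α] (P : α → Prop) (W : α → ℤ) (a : α)
    (ha : P a) :
    open scoped Classical in
    ∑ b with P b ∧ b ≤ a, W b = W a + ∑ b with P b ∧ b < a, W b := by
  classical
  have h : (Finset.univ.filter fun b : α => P b ∧ b ≤ a) =
      insert a (Finset.univ.filter fun b : α => P b ∧ b < a) := by
    ext b
    simp only [Finset.mem_filter, Finset.mem_univ, true_and, Finset.mem_insert]
    constructor
    · rintro ⟨hb, hba⟩
      rcases eq_or_lt_of_le hba with h | h
      · exact Or.inl h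
      · exact Or.inr ⟨hb, h⟩
    · rintro (h | ⟨hb, hba⟩)
      · subst h
        exact ⟨ha, le_refl _⟩
      · exact ⟨hb, hba.le⟩
  have h2 : a ∉ (Finset.univ.filter fun b : α => P b ∧ b < a) := by
    simp
  have e1 : ∑ b with P b ∧ b ≤ a, W b =
      ∑ b ∈ insert a (Finset.univ.filter fun b : α => P b ∧ b < a), W b := by
    rw [← h]
  rw [Finset.sum_insert h2] at e1
  convert e1 using 2

private theorem W1_ex {α : Type} [Fintype α] [PartialOrder α] (P : α → Prop) (F : α → ℤ) :
    open scoped Classical in
    ∃ W : α → ℤ, ∀ a, P a → ∑ b with P b ∧ b ≤ a, W b = F a := by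
  classical
  have wf : WellFounded ((· < ·) : α → α → Prop) := wellFounded_lt
  let step : (a : α) → ((b : α) → b < a → ℤ) → ℤ := fun a ih =>
    F a - ∑ b : {b : α // P b ∧ b < a}, ih b.1 b.2.2
  refine ⟨wf.fix step, fun a ha => ?_⟩
  have h1 : wf.fix step a = F a - ∑ b : {b : α // P b ∧ b < a}, wf.fix step b.1 := by
    rw [WellFounded.fix_eq]
  have h2 : ∑ b : {b : α // P b ∧ b < a}, wf.fix step b.1 =
      ∑ b with P b ∧ b < a, wf.fix step b := by
    refine (Finset.sum_subtype (p := fun b => P b ∧ b < a)
      (Finset.univ.filter fun b : α => P b ∧ b < a) ?_ (fun b => wf.fix step b)).symm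
    intro b
    simp
  have h3 := W1_split P (wf.fix step) a ha
  have h4 : ∑ b with P b ∧ b ≤ a, wf.fix step b = F a := by
    rw [h2] at h1
    have h5 : ∑ b with P b ∧ b ≤ a, wf.fix step b =
        wf.fix step a + ∑ b with P b ∧ b < a, wf.fix step b := by
      convert h3 using 2
    rw [h5]
    linarith
  convert h4 using 2

theorem W1_exists {V : Type} [Fintype V] : ∃ W : Subgroup (G V) → ℤ, IsWeight W := by
  classical
  obtain ⟨W, hW⟩ := W1_ex (α := Subgroup (G V)) Closed (fun K => if K ≤ S V then 0 else 1)
  refine ⟨W, fun K hK => ?_⟩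
  have := hW K hK
  convert this using 2

theorem W1_unique {V : Type} [Fintype V] (W W' : Subgroup (G V) → ℤ) (h : IsWeight W)
    (h' : IsWeight W') (K : Subgroup (G V)) (hK : Closed K) : W K = W' K := by
  classical
  have wf : WellFounded ((· < ·) : Subgroup (G V) → Subgroup (G V) → Prop) := wellFounded_lt
  induction K using wf.induction with
  | _ K ih =>
    have h1 := h K hK
    have h2 := h' K hK
    rw [W1_split Closed W K hK] at h1
    rw [W1_split Closed W' K hK] at h2
    have h3 : ∑ b with Closed b ∧ b < K, W b = ∑ b with Closed b ∧ b < K, W' b := by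
      refine Finset.sum_congr rfl fun b hb => ?_
      simp only [Finset.mem_filter, Finset.mem_univ, true_and] at hb
      exact ih b hb.2 hb.1
    rw [h3] at h1
    linarith

theorem SC_iff {V κ : Type} (D : Arc V → κ) : SC D ↔ ¬ stab D ≤ S V := by
  constructor
  · rintro ⟨π, hπ⟩ h
    have h1 : ((π, -1) : G V) ∈ stab D := by
      intro e
      rw [smul_neg]
      exact hπ e
    have h2 : (-1 : ℤˣ) = 1 := h h1
    exact absurd h2 (by decide)
  · intro h
    rw [SetLike.not_le_iff_exists] at h
    obtain ⟨g, hg, hg2⟩ := h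
    obtain ⟨π, a⟩ := g
    rcases Int.units_eq_one_or a with rfl | rfl
    · exact absurd (show ((π, 1) : G V).2 = 1 from rfl) hg2
    · refine ⟨π, fun e => ?_⟩
      have := hg e
      rw [smul_neg] at this
      exact this

theorem W1_formula {V κ : Type} [Fintype V] [DecidableEq V] [Fintype κ] (W : Subgroup (G V) → ℤ)
    (hW : IsWeight W) (f : (Arc V → κ) → ℂ) :
    open scoped Classical in
    ∑ D with SC D, f D =
      ∑ K : Subgroup (G V) with Closed K, (W K : ℂ) * ∑ D with K ≤ stab D, f D := by
  classical
  have h1 : ∀ D : Arc V → κ, (if SC D then f D else 0) =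
      ∑ K : Subgroup (G V) with Closed K, (if K ≤ stab D then (W K : ℂ) * f D else 0) := by
    intro D
    have h2 : ∑ L : Subgroup (G V) with Closed L ∧ L ≤ stab D, W L =
        if stab D ≤ S V then 0 else 1 := by
      have h0 := hW (stab D) (closed_stab D)
      convert h0 using 2
      ext L
      simp
    have h3 : ∑ K : Subgroup (G V) with Closed K, (if K ≤ stab D then (W K : ℂ) * f D else 0) =
        ((∑ L : Subgroup (G V) with Closed L ∧ L ≤ stab D, W L : ℤ) : ℂ) * f D := by
      rw [← Finset.sum_filter, Finset.filter_filter, Int.cast_sum, Finset.sum_mul]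
    rw [h3, h2]
    by_cases h4 : SC D
    · have h5 := (SC_iff D).1 h4
      simp [h4, h5]
    · have h5 : stab D ≤ S V := by
        by_contra h6
        exact h4 ((SC_iff D).2 h6)
      simp [h4, h5]
  rw [Finset.sum_filter, Finset.sum_congr rfl (fun D _ => h1 D), Finset.sum_comm]
  refine Finset.sum_congr rfl fun K _ => ?_
  rw [Finset.mul_sum, ← Finset.sum_filter]

theorem W1_fix {V κ : Type} [Fintype V] [Fintype κ] (K : Subgroup (G V)) :
    Nat.card {D : Arc V → κ // K ≤ stab D} = Fintype.card κ ^ orb K := by
  classical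
  have e : {D : Arc V → κ // K ≤ stab D} ≃ (MulAction.orbitRel.Quotient K (Arc V) → κ) :=
    { toFun := fun D => Quotient.lift D.1 (by
        rintro a b ⟨g, hg⟩
        have h1 := D.2 g.2 b
        have h2 : (g : G V) • b = a := hg
        rw [← h2]
        exact h1)
      invFun := fun F => ⟨fun e => F (Quotient.mk _ e), fun g hg e => by
        show F (Quotient.mk _ (g • e)) = F (Quotient.mk _ e)
        congr 1
        apply Quotient.sound
        exact ⟨⟨g, hg⟩, rfl⟩⟩
      left_inv := fun D => by
        apply Subtype.ext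
        funext e
        rfl
      right_inv := fun F => by
        funext x
        induction x using Quotient.inductionOn with
        | _ e => rfl }
  rw [Nat.card_congr e, Nat.card_fun, Nat.card_eq_fintype_card, orb]

theorem W1_count {V κ : Type} [Fintype V] [Fintype κ] (W : Subgroup (G V) → ℤ) (hW : IsWeight W) :
    open scoped Classical in
    (Nat.card {D : Arc V → κ // SC D} : ℤ) =
      ∑ K : Subgroup (G V) with Closed K, W K * (Fintype.card κ : ℤ) ^ orb K := by
  classical
  have h := W1_formula W hW (fun _ : Arc V → κ => (1 : ℂ))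
  have h1 : (∑ D : Arc V → κ with SC D, (1 : ℂ)) = (Nat.card {D : Arc V → κ // SC D} : ℂ) := by
    rw [Finset.sum_const, nsmul_eq_mul, mul_one, Nat.card_eq_fintype_card, Fintype.card_subtype]
  have h2 : ∀ K : Subgroup (G V), (∑ D : Arc V → κ with K ≤ stab D, (1 : ℂ)) =
      ((Fintype.card κ : ℤ) ^ orb K : ℤ) := by
    intro K
    rw [Finset.sum_const, nsmul_eq_mul, mul_one, ← Fintype.card_subtype, ← Nat.card_eq_fintype_card,
      W1_fix K]
    push_cast
    rfl
  have h3 : (Nat.card {D : Arc V → κ // SC D} : ℂ) =
      ∑ K : Subgroup (G V) with Closed K, (W K : ℂ) * ((Fintype.card κ : ℤ) ^ orb K : ℤ) := by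
    rw [← h1]
    refine Eq.trans ?_ (h.trans ?_)
    · apply Finset.sum_congr ?_ (fun _ _ => rfl)
      ext D
      simp
    · refine Finset.sum_congr rfl fun K _ => ?_
      rw [← h2 K]
  have h4 : (((Nat.card {D : Arc V → κ // SC D} : ℕ) : ℤ) : ℂ) =
      ((∑ K : Subgroup (G V) with Closed K, W K * (Fintype.card κ : ℤ) ^ orb K : ℤ) : ℂ) := by
    rw [Int.cast_natCast, h3, Int.cast_sum]
    refine Finset.sum_congr rfl fun K _ => ?_
    push_cast
    ring
  exact_mod_cast h4

end Pool.Agent.MP_b5e4d4_co.FP
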